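import Pool.Agent.H76.SW.CT

/-!
Reachability in the product of a coded graph and an automaton.
-/

namespace Pool.Agent.H69.SW

open Pool.Agent.H76.SW Relation

theorem mem_succs (E : GrC) (T : List TrC) (x y : ℕ × ℕ) :
    y ∈ succs E T x ↔ PStep E T x y := by
  unfold succs PStep
  simp only [List.mem_flatMap]
  constructor
  · rintro ⟨t, ht, e, he, h⟩
    obtain ⟨⟨s, l, b⟩, s'⟩ := t
    obtain ⟨⟨u, l'⟩, v⟩ := e
    simp only at h
    split_ifs at h with h1 h2 h3 h4
    · obtain ⟨rfl, rfl⟩ := h1
      subst h2
      simp only [List.mem_singleton] at h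
      subst h
      subst h3
      exact ⟨l, true, ht, Or.inl ⟨rfl, he⟩⟩
    · simp at h
    · obtain ⟨rfl, rfl⟩ := h1
      simp only [List.mem_singleton] at h
      subst h
      subst h4
      have hb : b = false := by simpa using h2
      subst hb
      exact ⟨l, false, ht, Or.inr ⟨rfl, he⟩⟩
    · simp at h
    · simp at h
  · rintro ⟨l, b, ht, h | h⟩
    · obtain ⟨rfl, he⟩ := h
      refine ⟨_, ht, _, he, ?_⟩
      simp
    · obtain ⟨rfl, he⟩ := h
      refine ⟨_, ht, _, he, ?_⟩
      simp

/-- The step of the iteration. -/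
def stp (E : GrC) (T : List TrC) (L : List (ℕ × ℕ)) : List (ℕ × ℕ) :=
  L ++ L.flatMap (succs E T)

theorem mem_stp (E : GrC) (T : List TrC) (L : List (ℕ × ℕ)) (y : ℕ × ℕ) :
    y ∈ stp E T L ↔ y ∈ L ∨ ∃ z ∈ L, PStep E T z y := by
  unfold stp
  simp only [List.mem_append, List.mem_flatMap, mem_succs]

/-- All possible successors. -/
def allS (E : GrC) (T : List TrC) : List (ℕ × ℕ) :=
  T.flatMap fun t => E.map fun e =>
    if t.1.2.2 = true then (e.2, t.2) else (e.1.1, t.2)

theorem length_allS (E : GrC) (T : List TrC) : (allS E T).length = T.length * E.length := by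
  unfold allS
  induction T with
  | nil => simp
  | cons t T ih =>
    rw [List.flatMap_cons, List.length_append, ih, List.length_map, List.length_cons]
    ring

theorem mem_allS (E : GrC) (T : List TrC) {x y : ℕ × ℕ} (h : PStep E T x y) :
    y ∈ allS E T := by
  unfold allS
  simp only [List.mem_flatMap, List.mem_map]
  obtain ⟨l, b, ht, h | h⟩ := h
  · obtain ⟨rfl, he⟩ := h
    exact ⟨_, ht, _, he, by simp⟩
  · obtain ⟨rfl, he⟩ := h
    exact ⟨_, ht, _, he, by simp⟩

theorem sub_univ (E : GrC) (T : List TrC) (x : ℕ × ℕ) (k : ℕ) :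
    ∀ y ∈ (stp E T)^[k] [x], y = x ∨ y ∈ allS E T := by
  induction k with
  | zero =>
    intro y hy
    simp only [Function.iterate_zero, id_eq, List.mem_singleton] at hy
    exact Or.inl hy
  | succ k ih =>
    intro y hy
    rw [Function.iterate_succ_apply', mem_stp] at hy
    rcases hy with hy | ⟨z, _, hz⟩
    · exact ih y hy
    · exact Or.inr (mem_allS E T hz)

/-- Closed under successors. -/
def Cl (E : GrC) (T : List TrC) (L : List (ℕ × ℕ)) : Prop :=
  ∀ y ∈ L, ∀ z, PStep E T y z → z ∈ L

theorem cl_or (E : GrC) (T : List TrC) (x : ℕ × ℕ) (k : ℕ) :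
    Cl E T ((stp E T)^[k] [x]) ∨ k + 1 ≤ ((stp E T)^[k] [x]).toFinset.card := by
  induction k with
  | zero => right; simp
  | succ k ih =>
    by_cases hc : Cl E T ((stp E T)^[k] [x])
    · left
      have hm : ∀ y, y ∈ (stp E T)^[k + 1] [x] ↔ y ∈ (stp E T)^[k] [x] := by
        intro y
        rw [Function.iterate_succ_apply', mem_stp]
        constructor
        · rintro (h | ⟨z, hz, hy⟩)
          · exact h
          · exact hc z hz y hy
        · exact Or.inl
      intro y hy z hz
      rw [hm] at hy ⊢
      exact hc y hy z hz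
    · have hcard := ih.resolve_left hc
      right
      unfold Cl at hc
      push Not at hc
      obtain ⟨y, hy, z, hz, hzn⟩ := hc
      have hsub : insert z ((stp E T)^[k] [x]).toFinset ⊆ ((stp E T)^[k + 1] [x]).toFinset := by
        intro w hw
        rw [Finset.mem_insert, List.mem_toFinset] at hw
        rw [List.mem_toFinset, Function.iterate_succ_apply', mem_stp]
        rcases hw with rfl | hw
        · exact Or.inr ⟨y, hy, hz⟩
        · exact Or.inl hw
      have h2 := Finset.card_le_card hsub
      rw [Finset.card_insert_of_notMem (by rwa [List.mem_toFinset])] at h2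
      omega

theorem closed_end (E : GrC) (T : List TrC) (x : ℕ × ℕ) :
    Cl E T ((stp E T)^[2 * E.length * T.length + 1] [x]) := by
  rcases cl_or E T x (2 * E.length * T.length + 1) with h | h
  · exact h
  · exfalso
    have hsub : ((stp E T)^[2 * E.length * T.length + 1] [x]).toFinset ⊆
        insert x (allS E T).toFinset := by
      intro y hy
      rw [List.mem_toFinset] at hy
      rw [Finset.mem_insert, List.mem_toFinset]
      exact sub_univ E T x _ y hy
    have h1 := Finset.card_le_card hsub
    have h2 := Finset.card_insert_le x (allS E T).toFinset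
    have h3 := List.toFinset_card_le (allS E T)
    rw [length_allS] at h3
    have h4 : T.length * E.length = E.length * T.length := Nat.mul_comm _ _
    have h5 : 2 * E.length * T.length = 2 * (E.length * T.length) := Nat.mul_assoc _ _ _
    omega

theorem reachL_eq (E : GrC) (T : List TrC) (L : List (ℕ × ℕ)) :
    reachL E T L = (stp E T)^[2 * E.length * T.length + 1] L := rfl

theorem iter_mono (E : GrC) (T : List TrC) (x : ℕ × ℕ) (k : ℕ) :
    x ∈ (stp E T)^[k] [x] := by
  induction k with
  | zero => simp
  | succ k ih =>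
    rw [Function.iterate_succ_apply', mem_stp]
    exact Or.inl ih

theorem iter_reach (E : GrC) (T : List TrC) (x : ℕ × ℕ) (k : ℕ) :
    ∀ y ∈ (stp E T)^[k] [x], ReflTransGen (PStep E T) x y := by
  induction k with
  | zero =>
    intro y hy
    simp only [Function.iterate_zero, id_eq, List.mem_singleton] at hy
    subst hy
    exact ReflTransGen.refl
  | succ k ih =>
    intro y hy
    rw [Function.iterate_succ_apply', mem_stp] at hy
    rcases hy with hy | ⟨z, hz, hy⟩
    · exact ih y hy
    · exact (ih z hz).tail hy

theorem pf_CRI : V_RI := by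
  intro E T x y
  rw [reachL_eq]
  constructor
  · exact iter_reach E T x _ y
  · intro h
    induction h with
    | refl => exact iter_mono E T x _
    | tail _ hs ih => exact closed_end E T x _ ih _ hs

end Pool.Agent.H69.SW
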