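import Pool.Agent.H76.SW.T

/-!
Canonical nested expansions.
-/

namespace Pool.Agent.H69.SW

open Pool.Agent.H76.SW

theorem path_nodes {Λ V : Type} {F : V → Λ → V → Prop} {x y : V} {w : List (Λ × Bool)}
    (h : Path F x w y) : ∃ u : Fin (w.length + 1) → V, u 0 = x ∧ u (Fin.last _) = y ∧
      ∀ i : Fin w.length, Step F (u i.castSucc) (w.get i) (u i.succ) := by
  induction h with
  | nil u => exact ⟨fun _ => u, rfl, rfl, fun i => i.elim0⟩
  | cons u v t l w hst _ ih =>
    obtain ⟨f, h0, h1, h2⟩ := ih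
    refine ⟨Fin.cons u f, rfl, ?_, ?_⟩
    · have : (Fin.last (l :: w).length) = Fin.succ (Fin.last w.length) := rfl
      rw [this, Fin.cons_succ]
      exact h1
    · intro i
      refine Fin.cases ?_ (fun j => ?_) i
      · change Step F u l (f 0)
        rw [h0]
        exact hst
      · exact h2 j

theorem path_of {Λ V : Type} {F : V → Λ → V → Prop} (w : List (Λ × Bool)) :
    ∀ (u : Fin (w.length + 1) → V),
      (∀ i : Fin w.length, Step F (u i.castSucc) (w.get i) (u i.succ)) →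
      Path F (u 0) w (u (Fin.last _)) := by
  induction w with
  | nil => intro u _; exact Path.nil _
  | cons l w ih =>
    intro u hu
    have h0 : Step F (u 0) l (u 1) := hu (0 : Fin (w.length + 1))
    refine Path.cons _ (u 1) _ l w h0 ?_
    exact ih (fun i => u i.succ) (fun i => hu i.succ)

theorem path_term (h1 : U_d7_path) (h2 : U_d9_mono) {A : Type} {k : ℕ} (hk : 1 ≤ k) {c : ℕ}
    (sub : Fin c → RQ A) {V : Type} (E : V → A → V → Prop)
    (ih : ∀ (j : Fin c) (u v : V), (sub j).Sat E u v → ∃ T : Term A, T.Width k ∧ T.Sat E u v ∧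
      ∀ (V' : Type) (E' : V' → A → V' → Prop) (u' v' : V'), T.Sat E' u' v' →
        (sub j).Sat E' u' v')
    {x y : V} {w : List ((A ⊕ Fin c) × Bool)} (h : Path (ext E (fun j => (sub j).Sat E)) x w y) :
    ∃ P : Term A, P.Width k ∧ P.Sat E x y ∧
      ∀ (V' : Type) (E' : V' → A → V' → Prop) (x' y' : V'), P.Sat E' x' y' →
        Path (ext E' (fun j => (sub j).Sat E')) x' w y' := by
  obtain ⟨u, hu0, hu1, hu⟩ := path_nodes h
  have hch : ∀ i : Fin w.length, ∃ T : Term A, T.Width k ∧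
      T.Sat E (u (if (w.get i).2 = true then i.castSucc else i.succ))
        (u (if (w.get i).2 = true then i.succ else i.castSucc)) ∧
      ∀ (V' : Type) (E' : V' → A → V' → Prop) (u' v' : V'), T.Sat E' u' v' →
        ext E' (fun j => (sub j).Sat E') u' (w.get i).1 v' := by
    intro i
    have hst := hu i
    unfold Step at hst
    have hsat : ext E (fun j => (sub j).Sat E)
        (u (if (w.get i).2 = true then i.castSucc else i.succ)) (w.get i).1
        (u (if (w.get i).2 = true then i.succ else i.castSucc)) := by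
      split_ifs at hst ⊢ <;> exact hst
    cases hl : (w.get i).1 with
    | inl a =>
      rw [hl] at hsat
      exact ⟨Term.edge a, trivial, hsat, fun V' E' u' v' h' => h'⟩
    | inr j =>
      rw [hl] at hsat
      obtain ⟨T, hT1, hT2, hT3⟩ := ih j _ _ hsat
      exact ⟨T, hT1, hT2, hT3⟩
  choose ch hch1 hch2 hch3 using hch
  refine ⟨Term.node (w.length + 1) w.length
    (fun i => if (w.get i).2 = true then i.castSucc else i.succ)
    (fun i => if (w.get i).2 = true then i.succ else i.castSucc) ch 0 (Fin.last _), ?_, ?_, ?_⟩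
  · refine ⟨?_, hch1⟩
    refine h2 (torso (fun i : Fin w.length => i.castSucc) (fun i : Fin w.length => i.succ)) _
      (Function.Embedding.refl _) ?_ k k le_rfl (h1 hk)
    rintro a b ⟨hab, i, hi⟩
    refine ⟨hab, i, ?_⟩
    simp only [Function.Embedding.refl_apply]
    beta_reduce at hi
    split_ifs at hi with hb
    · exact hi
    · rcases hi with ⟨e1, e2⟩ | ⟨e1, e2⟩
      · exact Or.inr ⟨e2, e1⟩
      · exact Or.inl ⟨e2, e1⟩
  · exact ⟨u, hch2, hu0, hu1⟩
  · rintro V' E' x' y' ⟨μ, hμ, rfl, rfl⟩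
    apply path_of w μ
    intro i
    have h3 := hch3 i V' E' _ _ (hμ i)
    beta_reduce at h3
    unfold Step
    split_ifs at h3 ⊢ <;> exact h3

theorem pf_E1 (h1 : U_d7_path) (h2 : U_d9_mono) : U_e1_exp := by
  intro A k hk ω
  induction ω with
  | cq c b sub p q ih =>
    intro hω V E u v h
    obtain ⟨μ, hμ, rfl, rfl⟩ := h
    have hP : ∀ i : Fin b.m, ∃ (w : List ((A ⊕ Fin c) × Bool)) (P : Term A),
        w ∈ (b.aut i).accepts ∧ P.Width k ∧ P.Sat E (μ (b.src i)) (μ (b.tgt i)) ∧
        ∀ (V' : Type) (E' : V' → A → V' → Prop) (x' y' : V'), P.Sat E' x' y' →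
          Path (ext E' (fun j => (sub j).Sat E')) x' w y' := by
      intro i
      obtain ⟨w, hw, hpath⟩ := hμ i
      obtain ⟨P, a1, a2, a3⟩ := path_term h1 h2 hk sub E
        (fun j u v hs => ih j (hω.2 j) E u v hs) hpath
      exact ⟨w, P, hw, a1, a2, a3⟩
    choose w P hw hP1 hP2 hP3 using hP
    refine ⟨Term.node b.n b.m b.src b.tgt P p q, ⟨hω.1, hP1⟩, ⟨μ, hP2, rfl, rfl⟩, ?_⟩
    rintro V' E' u' v' ⟨μ', hμ', e1, e2⟩
    exact ⟨μ', fun i => ⟨w i, hw i, hP3 i V' E' _ _ (hμ' i)⟩, e1, e2⟩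
  | union n sub ih =>
    intro hω V E u v h
    obtain ⟨j, hj⟩ := h
    obtain ⟨T, hT1, hT2, hT3⟩ := ih j (hω j) E u v hj
    exact ⟨T, hT1, hT2, fun V' E' u' v' h' => ⟨j, hT3 V' E' u' v' h'⟩⟩

end Pool.Agent.H69.SW
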