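import Pool.Agent.H76.SW.T

namespace Pool.Agent.H69.SW

open Pool.Agent.H76.SW

theorem pf_S3 : U_s3_id := by
  intro A T
  exact ⟨Function.injective_id, fun _ _ _ h => h, fun x l y h => Or.inl ⟨y, rfl, h⟩⟩

end Pool.Agent.H69.SW
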