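import Pool.Agent.H76.SW.T

/-!
Exchange of a part with two ports.
-/

namespace Pool.Agent.H69.SW

open Pool.Agent.H76.SW Relation

/-- Exchange of a part with two ports. -/
def U_u3_replace' : Prop :=
  ∀ {A C H H' Q : Type} (gC : C → Option (A × Bool) → C → Prop)
    (gH : H → Option (A × Bool) → H → Prop) (gH' : H' → Option (A × Bool) → H' → Prop)
    (_hC : Symm gC) (_hH : Symm gH) (_hH' : Symm gH') (c : Bool → C) (h : Bool → H)
    (h' : Bool → H') (tr : Q → A × Bool → Q → Prop) {n r : ℕ}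
    (_hLT : LT n gH h tr ⊆ LT n gH' h' tr)
    (_hsil : cl gH (h false) = cl gH (h true) → cl gH' (h' false) = cl gH' (h' true))
    (U : Set (Set ((Fin n × Q) × (Fin n × Q)) × (Fin r → Fin n))) (z : Fin r → C)
    (_hs : USat tr U (canon (glue gC gH c h)) (fun i => cl _ (Sum.inl (z i)))),
    USat tr U (canon (glue gC gH' c h')) (fun i => cl _ (Sum.inl (z i)))

theorem glue_symm {A C H : Type} {gC : C → Option (A × Bool) → C → Prop}
    {gH : H → Option (A × Bool) → H → Prop} (hC : Symm gC) (hH : Symm gH) (c : Bool → C)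
    (h : Bool → H) : Symm (glue gC gH c h) := by
  intro x l y hxy
  rcases x with x | x <;> rcases y with y | y
  · exact hC _ _ _ hxy
  · obtain ⟨rfl, b, h1, h2⟩ := hxy
    exact ⟨rfl, b, h1, h2⟩
  · obtain ⟨rfl, b, h1, h2⟩ := hxy
    exact ⟨rfl, b, h1, h2⟩
  · exact hH _ _ _ hxy

section

variable {A C H H' Q : Type} {gC : C → Option (A × Bool) → C → Prop}
  {gH : H → Option (A × Bool) → H → Prop} {gH' : H' → Option (A × Bool) → H' → Prop}
  {c : Bool → C} {h : Bool → H} {h' : Bool → H'} {tr : Q → A × Bool → Q → Prop}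

theorem rho_inr {w w' : H × Q} (hr : rho gH tr w w') :
    rho (glue gC gH c h) tr (Sum.inr w.1, w.2) (Sum.inr w'.1, w'.2) := by
  induction hr with
  | refl => exact ReflTransGen.refl
  | tail _ hst ih =>
    refine ih.tail ?_
    rcases hst with ⟨h1, h2⟩ | ⟨l, h1, h2⟩
    · exact Or.inl ⟨h1, h2⟩
    · exact Or.inr ⟨l, h1, h2⟩

/-- The silent classes of the part `C` are preserved. -/
theorem sil_class (hsil : cl gH (h false) = cl gH (h true) → cl gH' (h' false) = cl gH' (h' true))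
    (x y : C) (hxy : cl (glue gC gH c h) (Sum.inl x) = cl (glue gC gH c h) (Sum.inl y)) :
    cl (glue gC gH' c h') (Sum.inl x) = cl (glue gC gH' c h') (Sum.inl y) := by
  classical
  set S' := glue gC gH' c h' with hS'
  have hlink : ∀ b, cl S' (Sum.inl (c b)) = cl S' (Sum.inr (h' b)) := fun b =>
    Quot.sound (show S' (Sum.inl (c b)) none (Sum.inr (h' b)) from ⟨rfl, b, rfl, rfl⟩)
  have hcls : cl gH' (h' false) = cl gH' (h' true) →
      cl S' (Sum.inr (h' false)) = cl S' (Sum.inr (h' true)) := by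
    intro he
    have hf : ∀ u v : H', gH' u none v → cl S' (Sum.inr u) = cl S' (Sum.inr v) :=
      fun u v huv => Quot.sound (show S' (Sum.inr u) none (Sum.inr v) from huv)
    exact congrArg (Quot.lift (fun u : H' => cl S' (Sum.inr u)) hf) he
  let θ : C ⊕ H → Cv S' := fun p => match p with
    | Sum.inl w => cl S' (Sum.inl w)
    | Sum.inr w => if cl gH w = cl gH (h false) then cl S' (Sum.inl (c false)) else
        cl S' (Sum.inl (c true))
  have hθlink : ∀ b, θ (Sum.inr (h b)) = cl S' (Sum.inl (c b)) := by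
    intro b
    cases b with
    | false => simp [θ]
    | true =>
      by_cases he : cl gH (h true) = cl gH (h false)
      · simp only [θ, he, if_true]
        rw [hlink, hlink]
        exact hcls (hsil he.symm)
      · simp [θ, he]
  have hθ : ∀ p q : C ⊕ H, glue gC gH c h p none q → θ p = θ q := by
    intro p q hpq
    rcases p with p | p <;> rcases q with q | q
    · exact Quot.sound (show S' (Sum.inl p) none (Sum.inl q) from hpq)
    · obtain ⟨-, b, rfl, rfl⟩ := hpq
      exact (hθlink b).symm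
    · obtain ⟨-, b, rfl, rfl⟩ := hpq
      exact hθlink b
    · have : cl gH p = cl gH q := Quot.sound hpq
      simp only [θ, this]
  exact congrArg (Quot.lift θ hθ) hxy

/-- Walks of the old system give walks of the new one. -/
theorem transfer {n : ℕ} {rep : Fin n → C ⊕ H} {pl : Fin n → H} {pl' : Fin n → H'}
    (hpl : ∀ v w, rep v = Sum.inr w → pl v = w)
    (hΦ : ∀ a b s s', rho gH tr (lpos pl h a, s) (lpos pl h b, s') →
      rho gH' tr (lpos pl' h' a, s) (lpos pl' h' b, s'))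
    {rep' : Fin n → C ⊕ H'} (h1 : ∀ v w, rep v = Sum.inl w → rep' v = Sum.inl w)
    (h2 : ∀ v w, rep v = Sum.inr w → rep' v = Sum.inr (pl' v)) (v : Fin n) (s : Q)
    (y : (C ⊕ H) × Q) (hr : rho (glue gC gH c h) tr (rep v, s) y) :
    (∀ w, y.1 = Sum.inl w → rho (glue gC gH' c h') tr (rep' v, s) (Sum.inl w, y.2)) ∧
    (∀ w, y.1 = Sum.inr w → ∃ (a : Fin n ⊕ Bool) (t0 : Q),
      rho (glue gC gH' c h') tr (rep' v, s) (Sum.inr (lpos pl' h' a), t0) ∧
      rho gH tr (lpos pl h a, t0) (w, y.2)) := by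
  induction hr with
  | refl =>
    refine ⟨fun w hw => ?_, fun w hw => ?_⟩
    · rw [h1 v w hw]; exact ReflTransGen.refl
    · refine ⟨Sum.inl v, s, ?_, ?_⟩
      · rw [h2 v w hw]; exact ReflTransGen.refl
      · have : lpos pl h (Sum.inl v) = w := hpl v w hw
        rw [this]; exact ReflTransGen.refl
  | @tail y1 y2 _ hst ih =>
    obtain ⟨p1, t1⟩ := y1
    obtain ⟨p2, t2⟩ := y2
    obtain ⟨ih1, ih2⟩ := ih
    simp only at ih1 ih2
    rcases p1 with p1 | p1 <;> rcases p2 with p2 | p2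
    · refine ⟨fun w hw => ?_, fun w hw => by simp at hw⟩
      simp only [Sum.inl.injEq] at hw
      subst hw
      refine (ih1 p1 rfl).tail ?_
      rcases hst with ⟨g1, g2⟩ | ⟨l, g1, g2⟩
      · exact Or.inl ⟨g1, g2⟩
      · exact Or.inr ⟨l, g1, g2⟩
    · refine ⟨fun w hw => by simp at hw, fun w hw => ?_⟩
      simp only [Sum.inr.injEq] at hw
      subst hw
      rcases hst with ⟨g1, g2⟩ | ⟨l, g1, g2⟩
      · obtain ⟨-, b, e1, e2⟩ := g1
        simp only at g2
        subst g2 e1 e2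
        refine ⟨Sum.inr b, t1, (ih1 _ rfl).tail (Or.inl ⟨⟨rfl, b, rfl, rfl⟩, rfl⟩),
          ReflTransGen.refl⟩
      · exact absurd g1.1 (by simp)
    · refine ⟨fun w hw => ?_, fun w hw => by simp at hw⟩
      simp only [Sum.inl.injEq] at hw
      subst hw
      rcases hst with ⟨g1, g2⟩ | ⟨l, g1, g2⟩
      · obtain ⟨-, b, e1, e2⟩ := g1
        simp only at g2
        subst g2 e1 e2
        obtain ⟨a, t0, r1, r2⟩ := ih2 _ rfl
        have r3 := hΦ a (Sum.inr b) t0 t1 r2
        have r4 : rho (glue gC gH' c h') tr (Sum.inr (lpos pl' h' a), t0)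
            (Sum.inr (lpos pl' h' (Sum.inr b)), t1) := rho_inr r3
        exact (r1.trans r4).tail (Or.inl ⟨⟨rfl, b, rfl, rfl⟩, rfl⟩)
      · exact absurd g1.1 (by simp)
    · refine ⟨fun w hw => by simp at hw, fun w hw => ?_⟩
      simp only [Sum.inr.injEq] at hw
      subst hw
      obtain ⟨a, t0, r1, r2⟩ := ih2 _ rfl
      refine ⟨a, t0, r1, r2.tail ?_⟩
      rcases hst with ⟨g1, g2⟩ | ⟨l, g1, g2⟩
      · exact Or.inl ⟨g1, g2⟩
      · exact Or.inr ⟨l, g1, g2⟩

end

theorem pf_U3 (hlift : U_s5_lift) : U_u3_replace' := by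
  classical
  intro A C H H' Q gC gH gH' hC hH hH' c h h' tr n r hLT hsil U z hs
  obtain ⟨f, hf, μ, hμ, hout⟩ := hs
  have hrepx : ∀ v : Fin n, ∃ p : C ⊕ H, cl (glue gC gH c h) p = μ v ∧
      ((∃ i, f.2 i = v) → ∃ i, f.2 i = v ∧ p = Sum.inl (z i)) := by
    intro v
    by_cases hv : ∃ i, f.2 i = v
    · obtain ⟨i, hi⟩ := hv
      exact ⟨Sum.inl (z i), by rw [← hi]; exact (hout i).symm, fun _ => ⟨i, hi, rfl⟩⟩
    · obtain ⟨p, hp⟩ := Quot.exists_rep (μ v)
      exact ⟨p, hp, fun hv' => absurd hv' hv⟩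
  choose rep hrep1 hrep2 using hrepx
  let pl : Fin n → H := fun v => match rep v with
    | Sum.inl _ => h false
    | Sum.inr w => w
  have hpl : ∀ v w, rep v = Sum.inr w → pl v = w := by
    intro v w hv
    simp only [pl, hv]
  have hmem : {e : ((Fin n ⊕ Bool) × Q) × ((Fin n ⊕ Bool) × Q) |
      rho gH tr (lpos pl h e.1.1, e.1.2) (lpos pl h e.2.1, e.2.2)} ∈ LT n gH h tr :=
    ⟨pl, fun e he => he⟩
  obtain ⟨pl', hpl'⟩ := hLT hmem
  have hΦ : ∀ a b s s', rho gH tr (lpos pl h a, s) (lpos pl h b, s') →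
      rho gH' tr (lpos pl' h' a, s) (lpos pl' h' b, s') := fun a b s s' hab =>
    hpl' ((a, s), (b, s')) hab
  let rep' : Fin n → C ⊕ H' := fun v => match rep v with
    | Sum.inl w => Sum.inl w
    | Sum.inr _ => Sum.inr (pl' v)
  have hr1 : ∀ v w, rep v = Sum.inl w → rep' v = Sum.inl w := by
    intro v w hv
    simp only [rep', hv]
  have hr2 : ∀ v w, rep v = Sum.inr w → rep' v = Sum.inr (pl' v) := by
    intro v w hv
    simp only [rep', hv]
  have hcore : ∀ v v' s s', rho (glue gC gH c h) tr (rep v, s) (rep v', s') →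
      rho (glue gC gH' c h') tr (rep' v, s) (rep' v', s') := by
    intro v v' s s' hr
    obtain ⟨t1, t2⟩ := transfer hpl hΦ hr1 hr2 v s _ hr
    simp only at t1 t2
    rcases hv' : rep v' with w | w
    · rw [hr1 v' w hv']
      exact t1 w hv'
    · obtain ⟨a, t0, r1, r2⟩ := t2 w hv'
      have e : lpos pl h (Sum.inl v') = w := hpl v' w hv'
      rw [← e] at r2
      have r3 := hΦ a (Sum.inl v') t0 s' r2
      have r4 : rho (glue gC gH' c h') tr (Sum.inr (lpos pl' h' a), t0)
            (Sum.inr (lpos pl' h' (Sum.inl v')), s') := rho_inr r3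
      rw [hr2 v' w hv']
      exact r1.trans r4
  refine ⟨f, hf, fun v => cl _ (rep' v), ?_, ?_⟩
  · intro e he
    have h1 := hμ e he
    rw [← hrep1, ← hrep1, ← hlift _ (glue_symm hC hH c h)] at h1
    rw [← hlift _ (glue_symm hC hH' c h')]
    exact hcore _ _ _ _ h1
  · intro i
    obtain ⟨i0, hi0, hi1⟩ := hrep2 (f.2 i) ⟨i, rfl⟩
    simp only
    rw [hr1 _ _ hi1]
    apply sil_class hsil
    rw [← hi1, hrep1]
    exact hout i

end Pool.Agent.H69.SW
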